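import Pool.Agent.helper93.VD.SpecB1

set_option autoImplicit false

open scoped ContDiff Topology InnerProductSpace
open MeasureTheory Filter Set

namespace Pool.Agent.VD

noncomputable section

theorem NBD_one (K ε x y A B s : ℝ) (hK : 1 ≤ K) (hε : 0 ≤ ε) (hx : 0 ≤ x) (hy : 0 ≤ y) (hs0 : 0 ≤ s) (hs1 : s ≤ 1)
    (h1 : A ^ 2 ≤ K * (ε ^ 2 + x * A + s ^ 2 * (y * B))) (h2 : B ^ 2 ≤ K * (ε ^ 2 + s ^ 2 * (x * A) + y * B)) :
    A ≤ 2 * K * (ε + x + s * y) := by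
  have hK0 : 0 ≤ K := by linarith
  have hs2 : s ^ 2 ≤ 1 := by nlinarith
  have hs20 : 0 ≤ s ^ 2 := sq_nonneg s
  have e1 : K * (x * A) ≤ A ^ 2 / 4 + K ^ 2 * x ^ 2 := by nlinarith [sq_nonneg (A / 2 - K * x)]
  have e2 : K * (s ^ 2 * (y * B)) ≤ K ^ 2 * (s ^ 2 * y ^ 2) + s ^ 2 * B ^ 2 / 4 := by nlinarith [sq_nonneg (K * s * y - s * B / 2)]
  have e3 : K * (y * B) ≤ B ^ 2 / 4 + K ^ 2 * y ^ 2 := by nlinarith [sq_nonneg (B / 2 - K * y)]
  have e4 : K * (s ^ 2 * (x * A)) ≤ K ^ 2 * (s ^ 2 * x ^ 2) + s ^ 2 * A ^ 2 / 4 := by nlinarith [sq_nonneg (K * s * x - s * A / 2)]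
  have f1 : 3 / 4 * A ^ 2 ≤ K * ε ^ 2 + K ^ 2 * x ^ 2 + K ^ 2 * (s ^ 2 * y ^ 2) + s ^ 2 * B ^ 2 / 4 := by linarith
  have f2 : 3 / 4 * B ^ 2 ≤ K * ε ^ 2 + K ^ 2 * y ^ 2 + K ^ 2 * (s ^ 2 * x ^ 2) + s ^ 2 * A ^ 2 / 4 := by linarith
  have g0 := mul_le_mul_of_nonneg_left f2 hs20
  have k1 : 0 ≤ K * ε ^ 2 := mul_nonneg hK0 (sq_nonneg _)
  have k2 : 0 ≤ K ^ 2 * x ^ 2 := mul_nonneg (sq_nonneg _) (sq_nonneg _)
  have k3 : 0 ≤ A ^ 2 := sq_nonneg _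
  have g1 : s ^ 2 * (K * ε ^ 2) ≤ K * ε ^ 2 := by nlinarith
  have hs4 : s ^ 2 * s ^ 2 ≤ 1 := by nlinarith
  have g2 : (s ^ 2 * s ^ 2) * (K ^ 2 * x ^ 2) ≤ K ^ 2 * x ^ 2 := by nlinarith
  have g3 : (s ^ 2 * s ^ 2) * A ^ 2 ≤ A ^ 2 := by nlinarith
  have f3 : 3 / 4 * (s ^ 2 * B ^ 2) ≤ K * ε ^ 2 + K ^ 2 * (s ^ 2 * y ^ 2) + K ^ 2 * x ^ 2 + A ^ 2 / 4 := by
    have : 3 / 4 * (s ^ 2 * B ^ 2) ≤ s ^ 2 * (K * ε ^ 2) + K ^ 2 * (s ^ 2 * y ^ 2) + (s ^ 2 * s ^ 2) * (K ^ 2 * x ^ 2) + (s ^ 2 * s ^ 2) * A ^ 2 / 4 := by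
      nlinarith
    linarith
  have f4 : A ^ 2 ≤ 2 * (K * ε ^ 2 + K ^ 2 * x ^ 2 + K ^ 2 * (s ^ 2 * y ^ 2)) := by linarith
  have f5 : K * ε ^ 2 ≤ K ^ 2 * ε ^ 2 := by nlinarith [sq_nonneg ε, mul_nonneg hK0 (sq_nonneg ε)]
  have f6 : A ^ 2 ≤ 2 * K ^ 2 * (ε ^ 2 + x ^ 2 + (s * y) ^ 2) := by nlinarith
  have hsy : 0 ≤ s * y := mul_nonneg hs0 hy
  have hT : 0 ≤ ε + x + s * y := by positivity
  have f7 : ε ^ 2 + x ^ 2 + (s * y) ^ 2 ≤ (ε + x + s * y) ^ 2 := by nlinarith [mul_nonneg hε hx, mul_nonneg hε hsy, mul_nonneg hx hsy]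
  have f8 : A ^ 2 ≤ (2 * K * (ε + x + s * y)) ^ 2 := by
    have h8 : 2 * K ^ 2 * (ε ^ 2 + x ^ 2 + (s * y) ^ 2) ≤ 2 * K ^ 2 * (ε + x + s * y) ^ 2 :=
      mul_le_mul_of_nonneg_left f7 (by positivity)
    have h9 : 0 ≤ K ^ 2 * (ε + x + s * y) ^ 2 := by positivity
    nlinarith
  exact le_of_sq_le_sq_of_nonneg' f8 (by positivity)
where
  le_of_sq_le_sq_of_nonneg' {a b : ℝ} (h : a ^ 2 ≤ b ^ 2) (hb : 0 ≤ b) : a ≤ b := by
    exact le_trans (le_abs_self a) (abs_le_of_sq_le_sq h hb)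

theorem NBD_real (K ε x y A B al be d : ℝ) (hK : 1 ≤ K) (hε : 0 ≤ ε) (hx : 0 ≤ x) (hy : 0 ≤ y)
    (ha0 : 0 ≤ al) (ha1 : al ≤ 1) (hb0 : 0 ≤ be) (hb1 : be ≤ 1)
    (h1 : A ^ 2 ≤ K * (ε ^ 2 + x * A + (al * be) ^ 2 * (y * B))) (h2 : B ^ 2 ≤ K * (ε ^ 2 + (al * be) ^ 2 * (x * A) + y * B))
    (h3 : d ^ 2 ≤ K * (ε ^ 2 + al ^ 2 * (x * A) + be ^ 2 * (y * B))) : d ≤ 3 * K * (ε + al * x + be * y) := by
  have hK0 : 0 ≤ K := by linarith
  have hs0 : 0 ≤ al * be := mul_nonneg ha0 hb0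
  have hs1 : al * be ≤ 1 := mul_le_one₀ ha1 hb0 hb1
  have hA := NBD_one K ε x y A B (al * be) hK hε hx hy hs0 hs1 h1 h2
  have hB := NBD_one K ε y x B A (al * be) hK hε hy hx hs0 hs1 (by linarith) (by linarith)
  have hax : 0 ≤ al * x := mul_nonneg ha0 hx
  have hby : 0 ≤ be * y := mul_nonneg hb0 hy
  set T := ε + al * x + be * y with hT
  have hT0 : 0 ≤ T := by positivity
  have t1 : al * (ε + x + al * be * y) ≤ T := by
    have a1 : al * ε ≤ ε := mul_le_of_le_one_left hε ha1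
    have a2 : al * (al * (be * y)) ≤ be * y := by
      have := mul_le_of_le_one_left hby ha1
      exact (mul_le_of_le_one_left (mul_nonneg ha0 hby) ha1).trans this
    have a3 : al * (ε + x + al * be * y) = al * ε + al * x + al * (al * (be * y)) := by ring
    rw [a3, hT]
    linarith
  have t2 : be * (ε + y + al * be * x) ≤ T := by
    have a1 : be * ε ≤ ε := mul_le_of_le_one_left hε hb1
    have a2 : be * (be * (al * x)) ≤ al * x := by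
      have := mul_le_of_le_one_left hax hb1
      exact (mul_le_of_le_one_left (mul_nonneg hb0 hax) hb1).trans this
    have a3 : be * (ε + y + al * be * x) = be * ε + be * y + be * (be * (al * x)) := by ring
    rw [a3, hT]
    linarith
  have haT : al * x ≤ T := by rw [hT]; linarith
  have hbT : be * y ≤ T := by rw [hT]; linarith
  have u1 : al ^ 2 * (x * A) ≤ 2 * K * T ^ 2 := by
    have b1 : al * (al * x) * A ≤ al * (al * x) * (2 * K * (ε + x + al * be * y)) :=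
      mul_le_mul_of_nonneg_left hA (mul_nonneg ha0 hax)
    have b2 : al * (al * x) * (2 * K * (ε + x + al * be * y)) = 2 * K * (al * x) * (al * (ε + x + al * be * y)) := by ring
    have b3 : 2 * K * (al * x) * (al * (ε + x + al * be * y)) ≤ 2 * K * (al * x) * T :=
      mul_le_mul_of_nonneg_left t1 (by positivity)
    have b4 : 2 * K * (al * x) * T ≤ 2 * K * T * T :=
      mul_le_mul_of_nonneg_right (mul_le_mul_of_nonneg_left haT (by positivity)) hT0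
    nlinarith
  have u2 : be ^ 2 * (y * B) ≤ 2 * K * T ^ 2 := by
    have b1 : be * (be * y) * B ≤ be * (be * y) * (2 * K * (ε + y + al * be * x)) :=
      mul_le_mul_of_nonneg_left hB (mul_nonneg hb0 hby)
    have b2 : be * (be * y) * (2 * K * (ε + y + al * be * x)) = 2 * K * (be * y) * (be * (ε + y + al * be * x)) := by ring
    have b3 : 2 * K * (be * y) * (be * (ε + y + al * be * x)) ≤ 2 * K * (be * y) * T :=
      mul_le_mul_of_nonneg_left t2 (by positivity)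
    have b4 : 2 * K * (be * y) * T ≤ 2 * K * T * T :=
      mul_le_mul_of_nonneg_right (mul_le_mul_of_nonneg_left hbT (by positivity)) hT0
    nlinarith
  have u3 : ε ^ 2 ≤ T ^ 2 := by
    have : ε ≤ T := by rw [hT]; linarith
    exact pow_le_pow_left₀ hε this 2
  have u4 : d ^ 2 ≤ K * (T ^ 2 + 2 * K * T ^ 2 + 2 * K * T ^ 2) :=
    h3.trans (mul_le_mul_of_nonneg_left (by linarith) hK0)
  have u5 : d ^ 2 ≤ (3 * K * T) ^ 2 := by
    have c1 : 0 ≤ T ^ 2 := sq_nonneg _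
    have c2 : K * T ^ 2 ≤ K * (K * T ^ 2) := by
      have := mul_le_mul_of_nonneg_right hK (mul_nonneg hK0 c1)
      linarith
    have c3 : 0 ≤ K * (K * T ^ 2) := by positivity
    nlinarith
  exact le_trans (le_abs_self d) (abs_le_of_sq_le_sq u5 (by positivity))

theorem NBD_QQ {m : ℕ} (z : Z m) : |QQ z| ≤ ‖z.1‖ * ‖z‖ := by
  unfold QQ
  refine (abs_real_inner_le_norm _ _).trans ?_
  exact mul_le_mul_of_nonneg_left (norm_snd_le z) (norm_nonneg _)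

theorem NBD_proof (hNWS : NWS_stmt) (hNFD : NFD_stmt) : NBD_stmt := by
  intro m c C e0 hc hC he0
  obtain ⟨e1, μ, K, he1, he2, hμ, hK, H⟩ := hNWS m c C e0 hc hC he0
  refine ⟨e1, μ / 2, 3 * K, he1, he2, by positivity, by linarith, ?_⟩
  intro F n ε a b hF hn hε ha hb k hk
  have H0 := H F n ε a b hF hn hε ha hb 0 (Nat.zero_le n)
  have Hn := H F n ε a b hF hn hε ha hb n le_rfl
  have Hk := H F n ε a b hF hn hε ha hb k hk
  have q0 : max 0 (-QQ (a 0 - b 0)) ≤ ‖(a 0 - b 0).1‖ * ‖a 0 - b 0‖ := by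
    refine max_le (mul_nonneg (norm_nonneg _) (norm_nonneg _)) ?_
    exact (neg_le_abs _).trans (NBD_QQ _)
  have qn : max 0 (QQ (a n - b n)) ≤ ‖(a n - b n).1‖ * ‖a n - b n‖ := by
    refine max_le (mul_nonneg (norm_nonneg _) (norm_nonneg _)) ?_
    exact (le_abs_self _).trans (NBD_QQ _)
  have hkn : (k : ℝ) ≤ n := by exact_mod_cast hk
  have hk0 : (0 : ℝ) ≤ k := Nat.cast_nonneg k
  have hK0 : 0 ≤ K := by linarith
  have hal : Real.exp (-(μ / 2 * k)) ≤ 1 := Real.exp_le_one_iff.2 (by have := mul_nonneg (by positivity : (0 : ℝ) ≤ μ / 2) hk0; linarith)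
  have hbe : Real.exp (-(μ / 2 * (n - k))) ≤ 1 :=
    Real.exp_le_one_iff.2 (by have := mul_nonneg (by positivity : (0 : ℝ) ≤ μ / 2) (sub_nonneg.2 hkn); linarith)
  have ea : Real.exp (-(μ / 2 * k)) ^ 2 = Real.exp (-(μ * k)) := by
    rw [← Real.exp_nat_mul]
    ring_nf
  have eb : Real.exp (-(μ / 2 * (n - k))) ^ 2 = Real.exp (-(μ * (n - k))) := by
    rw [← Real.exp_nat_mul]
    ring_nf
  have eab : (Real.exp (-(μ / 2 * k)) * Real.exp (-(μ / 2 * (n - k)))) ^ 2 = Real.exp (-(μ * n)) := by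
    rw [mul_pow, ea, eb, ← Real.exp_add]
    ring_nf
  refine NBD_real K ε ‖(a 0 - b 0).1‖ ‖(a n - b n).1‖ ‖a 0 - b 0‖ ‖a n - b n‖ (Real.exp (-(μ / 2 * k))) (Real.exp (-(μ / 2 * (n - k))))
    ‖a k - b k‖ hK hε (norm_nonneg _) (norm_nonneg _) (Real.exp_nonneg _) hal (Real.exp_nonneg _) hbe ?_ ?_ ?_
  · refine H0.trans (mul_le_mul_of_nonneg_left ?_ hK0)
    rw [eab]
    have e3 : Real.exp (-(μ * ((0 : ℕ) : ℝ))) = 1 := by simp
    have e4 : Real.exp (-(μ * ((n : ℝ) - ((0 : ℕ) : ℝ)))) = Real.exp (-(μ * n)) := by simp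
    rw [e3, e4, one_mul]
    have := mul_le_mul_of_nonneg_left qn (Real.exp_nonneg (-(μ * n)))
    linarith
  · refine Hn.trans (mul_le_mul_of_nonneg_left ?_ hK0)
    rw [eab]
    have e4 : Real.exp (-(μ * ((n : ℝ) - (n : ℝ)))) = 1 := by simp
    rw [e4, one_mul]
    have := mul_le_mul_of_nonneg_left q0 (Real.exp_nonneg (-(μ * n)))
    linarith
  · refine Hk.trans (mul_le_mul_of_nonneg_left ?_ hK0)
    rw [ea, eb]
    have h5 := mul_le_mul_of_nonneg_left q0 (Real.exp_nonneg (-(μ * k)))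
    have h6 := mul_le_mul_of_nonneg_left qn (Real.exp_nonneg (-(μ * ((n : ℝ) - k))))
    linarith

end

end Pool.Agent.VD
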